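import Pool.Agent.H.MP_9ac7bc_an.E

open MeasureTheory Filter Topology Real
open Pool.Agent.H.MP_636246_an Pool.Agent.H.MP_9ac7bc_an

namespace Pool.Agent.Results.MP_3779a0_an.No

/-- The Henon map `(x, y) ↦ (p x - a y, x)`. -/
noncomputable def hn (p : Polynomial ℂ) (a : ℂ) (z : ℂ × ℂ) : ℂ × ℂ := (p.eval z.1 - a * z.2, z.1)

theorem result : ∃ (p : Polynomial ℂ) (a : ℂ) (φ g : ℂ × ℂ → ℝ) (C D : NNReal)
    (μ : Measure (ℂ × ℂ)), 2 ≤ p.natDegree ∧ a ≠ 0 ∧ LipschitzWith C φ ∧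
    pr (hn p a) φ = (0 : ℝ) ∧ IsEq (hn p a) φ μ ∧ (∀ ν, IsEq (hn p a) φ ν → ν = μ) ∧
    HolderWith D 4⁻¹ g ∧ ∫ x, g x ∂μ = 0 ∧
    (¬∃ ψ : ℂ × ℂ → ℝ, MemLp ψ 2 μ ∧ ∀ᵐ x ∂μ, g x = ψ (hn p a x) - ψ x) ∧
    ∀ ε : ℝ, 0 < ε → (∀ᶠ n : ℕ in atTop, μ {x | ε < birkhoffSum (hn p a) g n x / n} = 0) ∧
      ∀ c : ℝ, ¬Tendsto (fun n : ℕ =>
        ENNReal.log (μ {x | ε < birkhoffSum (hn p a) g n x / n}) / (n : EReal)) atTop
          (𝓝 ((-c : ℝ) : EReal)) := by
  set f := hn (.X ^ 2 + .C (lam + 2⁻¹) * .X) (lam * 2⁻¹) with F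
  have e : f = fun z => (ff z.swap).swap := by ext z <;> simp [f, ff, hn]
  have w : ∀ z : ℂ × ℂ, ‖z.swap‖ = ‖z‖ := fun z => max_comm _ _
  obtain ⟨φ, g, C, D, μ, h1, h2, h3, h4, h5, h6, h7, h8⟩ := main (f := f)
    (H := Prod.swap ∘ HH) (by rw [e]; unfold ff Prod.swap; fun_prop) (fun ν hν => by
      have := hν.1
      have m : Measurable ff := by unfold ff; fun_prop
      have := ae_of_ae_map measurable_swap.aemeasurable (bdd (ν := ν.map Prod.swap)
        ⟨Measure.isProbabilityMeasure_map measurable_swap.aemeasurable, m, by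
          rw [Measure.map_map m measurable_swap, show ff ∘ Prod.swap = Prod.swap ∘ f by
            rw [e]; rfl, ← Measure.map_map measurable_swap hν.2.measurable, hν.2.map_eq]⟩)
      simpa only [w] using this)
    (by rw [Set.image_comp]; exact (Homeomorph.prodComm ℂ ℂ).isOpenMap _ siegel.1)
    (fun p hp q hq => by simpa only [Function.comp, ← Prod.swap_sub, w] using siegel.2.1 p hp q hq)
    fun p hp => by rw [e]; exact congrArg Prod.swap (siegel.2.2 p hp)
  have := h3.1.1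
  have hf := h3.1.2
  refine ⟨.X ^ 2 + .C (lam + 2⁻¹) * .X, lam * 2⁻¹, φ, g, C, D, μ, (Eq.symm (by compute_degree!)).le,
    mul_ne_zero (Complex.exp_ne_zero _) (by norm_num), h1, ?_⟩
  rw [← F]
  refine ⟨h2, h3, h4, h5, h6, fun ⟨ψ, p1, p2⟩ => ?_, fun ε e0 => ?_⟩
  · have i := p1.integrable one_le_two
    obtain ⟨n, a, b⟩ := ((h8 _ one_half_pos).and_eventually ((tendsto_sqrt_atTop.comp
      tendsto_natCast_atTop_atTop).eventually_gt_atTop (4 * ∫ x, |ψ x| ∂μ))).exists
    have j : Integrable (fun x => |ψ (f^[n] x)|) μ := ((hf.iterate n).integrable_comp i.abs.1).2 i.abs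
    have k := mul_meas_ge_le_integral_of_nonneg (f := fun x => |ψ (f^[n] x)| + |ψ x|)
      (.of_forall fun x => by positivity) (j.add i.abs) √n
    rw [integral_add j i.abs, int_it hf i.abs] at k
    have l : μ.real Set.univ ≤ μ.real ({x | |birkhoffSum f g n x| < √n} ∪
        {x | √n ≤ |ψ (f^[n] x)| + |ψ x|}) := by
      refine ENNReal.toReal_mono (measure_ne_top _ _) (measure_mono_ae ?_)
      filter_upwards [ae_all_iff.2 fun i => (hf.iterate i).quasiMeasurePreserving.ae p2] with x hx _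
      refine (lt_or_ge |birkhoffSum f g n x| √n).imp_right fun c => le_trans c ?_
      rw [birkhoffSum, Finset.sum_congr rfl fun i _ => (hx i).trans (by
        rw [← Function.iterate_succ_apply' f]), Finset.sum_range_sub fun i => ψ (f^[i] x)]
      exact abs_sub _ _
    have := l.trans (measureReal_union_le _ _)
    rw [probReal_univ] at this
    have := mul_le_mul_of_nonneg_left (show 1 / 2 ≤ μ.real {x | √n ≤ |ψ (f^[n] x)| + |ψ x|} by
      linarith) (sqrt_nonneg n)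
    simp only [Function.comp] at b
    linarith
  have z : ∀ᶠ n : ℕ in atTop, μ {x | ε < birkhoffSum f g n x / n} = 0 := by
    filter_upwards [h7 ε e0, eventually_gt_atTop 0] with n hn n0
    exact measure_eq_zero_iff_ae_notMem.2 (hn.mono fun x hx c => not_lt.2
      ((div_le_iff₀ (by exact_mod_cast n0)).2 (le_of_abs_le hx)) c)
  refine ⟨z, fun c h => EReal.coe_ne_bot _ (tendsto_nhds_unique h (tendsto_const_nhds.congr' ?_))⟩
  filter_upwards [z, eventually_gt_atTop 0] with n hn n0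
  rw [hn, ENNReal.log_zero, EReal.bot_div_of_pos_ne_top (by exact_mod_cast n0)
    (EReal.natCast_ne_top n)]

end Pool.Agent.Results.MP_3779a0_an.No
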